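import Pool.Agent.H31.LEV.Targets

/-!
# Jensen's inequality for the logarithm
-/

set_option autoImplicit false

open Complex Filter Topology Set

namespace Pool.Agent.H59.LEV

open Pool.Agent.H31.LEV

theorem log_le_aux (y C : ℝ) (hy : 0 < y) (hC : 0 < C) :
    2 * Real.log y ≤ y ^ 2 / C - 1 + Real.log C := by
  have h1 : 0 < y ^ 2 / C := by positivity
  have h2 := Real.log_le_sub_one_of_pos h1
  rw [Real.log_div (by positivity) hC.ne', Real.log_pow] at h2
  push_cast at h2
  linarith

theorem pf_JLG : T_JLG := by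
  intro X _ x C hC hx hsum
  have hC0 : 0 < C := by linarith
  have h1 : ∑ i, 2 * Real.log ‖x i‖ ≤ ∑ i, (‖x i‖ ^ 2 / C - 1 + Real.log C) :=
    Finset.sum_le_sum fun i _ => log_le_aux _ C (norm_pos_iff.2 (hx i)) hC0
  rw [← Finset.mul_sum, Finset.sum_add_distrib, Finset.sum_sub_distrib, ← Finset.sum_div,
    Finset.sum_const, Finset.sum_const, Finset.card_univ, nsmul_eq_mul, nsmul_eq_mul,
    mul_one] at h1
  have h2 : (∑ i, ‖x i‖ ^ 2) / C ≤ Fintype.card X := by
    rw [div_le_iff₀ hC0, mul_comm]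
    exact hsum
  linarith

end Pool.Agent.H59.LEV
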