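import Pool.Agent.H31.LEV.Targets

/-!
# The upper bound for the number of all zeros
-/

set_option autoImplicit false

open Complex Filter Topology Set

namespace Pool.Agent.H59.LEV

open Pool.Agent.H31.LEV

/-! ### Points -/

theorem pt_re (x t : ℝ) : (pt x t).re = x := by simp [pt]

theorem pt_im (x t : ℝ) : (pt x t).im = t := by simp [pt]

theorem pt_eta (s : ℂ) : pt s.re s.im = s := by
  apply Complex.ext
  · exact pt_re _ _
  · exact pt_im _ _

theorem hasDerivAt_pt (x t : ℝ) : HasDerivAt (fun t : ℝ => pt x t) I t := by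
  have h := ((hasDerivAt_id t).ofReal_comp.mul_const I).const_add (x : ℂ)
  rw [ofReal_one, one_mul] at h
  exact h

theorem continuous_pt (x : ℝ) : Continuous (fun t : ℝ => pt x t) := by
  unfold pt
  fun_prop

/-! ### The gamma factor -/

theorem hasDerivAt_HH (B : ℝ) (s : ℂ) (hB : 1 ≤ B) (hs : 0 < s.re) :
    HasDerivAt (HH B) (HH B s * (Real.log B + digamma s)) s := by
  have hB0 : (B : ℂ) ≠ 0 := by
    rw [ofReal_ne_zero]
    linarith
  have h1 : HasDerivAt (fun s : ℂ => (B : ℂ) ^ s) ((B : ℂ) ^ s * Complex.log B * 1) s :=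
    (hasDerivAt_id s).const_cpow (Or.inl hB0)
  have hG : Gamma s ≠ 0 := Gamma_ne_zero_of_re_pos hs
  have h2 : HasDerivAt Gamma (deriv Gamma s) s := by
    apply DifferentiableAt.hasDerivAt
    apply differentiableAt_Gamma
    intro m h
    rw [h] at hs
    simp at hs
    have : (0 : ℝ) ≤ m := Nat.cast_nonneg m
    linarith
  have h3 := h1.mul h2
  have h4 : (B : ℂ) ^ s * Complex.log B * 1 * Gamma s + (B : ℂ) ^ s * deriv Gamma s =
      HH B s * (Real.log B + digamma s) := by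
    unfold HH digamma
    rw [logDeriv_apply, ofReal_log (by linarith)]
    field_simp
  rw [h4] at h3
  exact h3

theorem HH_ne_zero (B : ℝ) (s : ℂ) (hB : 1 ≤ B) (hs : 0 < s.re) : HH B s ≠ 0 := by
  have hB0 : (B : ℂ) ≠ 0 := by
    rw [ofReal_ne_zero]
    linarith
  unfold HH
  refine mul_ne_zero ?_ (Gamma_ne_zero_of_re_pos hs)
  rw [cpow_def_of_ne_zero hB0]
  exact exp_ne_zero _

/-! ### The critical line -/

theorem prod_real (Y : Multiset ℝ) (t : ℝ) :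
    ∃ p : ℝ, (Y.map (fun y : ℝ => pt (1 / 2) t - pt (1 / 2) y)).prod =
      I ^ (Multiset.card Y) * (p : ℂ) ∧ (t ∉ Y → p ≠ 0) := by
  induction Y using Multiset.induction_on with
  | empty => exact ⟨1, by simp, fun _ => one_ne_zero⟩
  | cons a Y ih =>
    obtain ⟨p, hp, hp0⟩ := ih
    refine ⟨(t - a) * p, ?_, ?_⟩
    · rw [Multiset.map_cons, Multiset.prod_cons, hp, Multiset.card_cons, pow_succ]
      unfold pt
      push_cast
      ring
    · intro h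
      rw [Multiset.mem_cons, not_or] at h
      exact mul_ne_zero (sub_ne_zero.2 h.1) (hp0 h.2)

/-- the real part of the logarithmic derivative on the critical line -/
theorem re_logDeriv (hZT : T_ZT) (L G : ℂ → ℂ) (B : ℝ) (W : ℂ) (Y : Multiset ℝ) (t : ℝ)
    (hB : 1 ≤ B) (hL : FEq L B W) (hG : Differentiable ℂ G)
    (hLG : ∀ s : ℂ, L s = (Y.map (fun y : ℝ => s - pt (1 / 2) y)).prod * G s)
    (hGt : G (pt (1 / 2) t) ≠ 0) :
    (Real.log B + digamma (pt (1 / 2) t) + deriv G (pt (1 / 2) t) / G (pt (1 / 2) t)).re = 0 := by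
  obtain ⟨ω, Z, Z', hω, -, hZ⟩ := hZT L B W (by linarith) hL
  have hω0 : ω ≠ 0 := by
    intro h
    rw [h, norm_zero] at hω
    exact zero_ne_one hω
  have hre : ∀ u : ℝ, 0 < (pt (1 / 2) u).re := by
    intro u
    rw [pt_re]
    norm_num
  obtain ⟨c, hc⟩ : ∃ c : ℂ, c = I ^ (Multiset.card Y) * ω⁻¹ := ⟨_, rfl⟩
  have hc0 : c ≠ 0 := by
    rw [hc]
    exact mul_ne_zero (pow_ne_zero _ I_ne_zero) (inv_ne_zero hω0)
  obtain ⟨Q, hQ⟩ : ∃ Q : ℝ → ℂ, Q = fun u => c * (HH B (pt (1 / 2) u) * G (pt (1 / 2) u)) :=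
    ⟨_, rfl⟩
  have hQd : ∀ u : ℝ, HasDerivAt Q (Q u * (I * (Real.log B + digamma (pt (1 / 2) u))) +
      c * (HH B (pt (1 / 2) u) * (deriv G (pt (1 / 2) u) * I))) u := by
    intro u
    have h1 : HasDerivAt (fun u : ℝ => HH B (pt (1 / 2) u))
        (HH B (pt (1 / 2) u) * (Real.log B + digamma (pt (1 / 2) u)) * I) u :=
      (hasDerivAt_HH B _ hB (hre u)).comp u (hasDerivAt_pt _ u)
    have h2 : HasDerivAt (fun u : ℝ => G (pt (1 / 2) u)) (deriv G (pt (1 / 2) u) * I) u :=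
      (hG _).hasDerivAt.comp u (hasDerivAt_pt _ u)
    have h3 := (h1.mul h2).const_mul c
    rw [hQ]
    refine h3.congr_deriv ?_
    ring
  have hQc : Continuous Q := continuous_iff_continuousAt.2 fun u => (hQd u).continuousAt
  have him0 : ∀ u : ℝ, u ∉ Y → (Q u).im = 0 := by
    intro u hu
    obtain ⟨p, hp, hp0⟩ := prod_real Y u
    have h1 := (hZ u).1
    rw [hLG, hp] at h1
    have h2 : (p : ℂ) * Q u = (Z u : ℂ) := by
      rw [hQ]
      simp only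
      rw [hc]
      have : (p : ℂ) * (I ^ (Multiset.card Y) * ω⁻¹ * (HH B (pt (1 / 2) u) *
          G (pt (1 / 2) u))) = ω⁻¹ * (HH B (pt (1 / 2) u) * (I ^ (Multiset.card Y) * (p : ℂ) *
          G (pt (1 / 2) u))) := by ring
      rw [this, h1, ← mul_assoc, inv_mul_cancel₀ hω0, one_mul]
    have h3 := congrArg Complex.im h2
    rw [im_ofReal_mul, ofReal_im] at h3
    exact (mul_eq_zero.1 h3).resolve_left (hp0 hu)
  have him : ∀ u : ℝ, (Q u).im = 0 := by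
    classical
    have hfin : Set.Countable {u : ℝ | u ∈ Y} := by
      have : {u : ℝ | u ∈ Y} = (Y.toFinset : Set ℝ) := by
        ext u
        simp
      rw [this]
      exact Y.toFinset.countable_toSet
    have hd : Dense ({u : ℝ | u ∈ Y}ᶜ) := hfin.dense_compl ℝ
    have hcl : IsClosed {u : ℝ | (Q u).im = 0} :=
      isClosed_eq (continuous_im.comp hQc) continuous_const
    have h1 : closure ({u : ℝ | u ∈ Y}ᶜ) ⊆ {u : ℝ | (Q u).im = 0} :=
      hcl.closure_subset_iff.2 fun u hu => him0 u hu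
    intro u
    exact h1 (hd u)
  have hd := hQd t
  have h1 : HasDerivAt (fun u => (Q u).im) ((Q t * (I * (Real.log B + digamma (pt (1 / 2) t))) +
      c * (HH B (pt (1 / 2) t) * (deriv G (pt (1 / 2) t) * I))).im) t :=
    Complex.imCLM.hasFDerivAt.comp_hasDerivAt t hd
  have h2 : HasDerivAt (fun u => (Q u).im) 0 t := by
    have : (fun u => (Q u).im) = fun _ => (0 : ℝ) := funext him
    rw [this]
    exact hasDerivAt_const t 0
  have h3 := h1.unique h2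
  have hQt : Q t ≠ 0 := by
    rw [hQ]
    exact mul_ne_zero hc0 (mul_ne_zero (HH_ne_zero B _ hB (hre t)) hGt)
  have h4 : Q t * (I * (Real.log B + digamma (pt (1 / 2) t))) +
      c * (HH B (pt (1 / 2) t) * (deriv G (pt (1 / 2) t) * I)) = Q t * (I *
        (Real.log B + digamma (pt (1 / 2) t) + deriv G (pt (1 / 2) t) / G (pt (1 / 2) t))) := by
    rw [hQ]
    simp only
    field_simp
  rw [h4] at h3
  have h5 : Q t = ((Q t).re : ℂ) := by
    apply Complex.ext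
    · rw [ofReal_re]
    · rw [him t, ofReal_im]
  have h6 : (Q t).re ≠ 0 := by
    intro h
    rw [h, ofReal_zero] at h5
    exact hQt h5
  rw [h5, im_ofReal_mul, I_mul_im] at h3
  exact (mul_eq_zero.1 h3).resolve_left h6

/-! ### Zeros -/

theorem zero_of_order {L : ℂ → ℂ} (hL : Differentiable ℂ L) {ρ : ℂ}
    (h : analyticOrderNatAt L ρ ≠ 0) : L ρ = 0 := by
  by_contra hne
  apply h
  have h1 : AnalyticAt ℂ L ρ := hL.analyticAt ρ
  have h2 : analyticOrderAt L ρ = 0 := h1.analyticOrderAt_eq_zero.2 hne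
  unfold analyticOrderNatAt
  rw [h2]
  rfl

open Classical in
theorem NZ_eq {L : ℂ → ℂ} (F : Finset ℂ) (S : Set ℂ)
    (hF : ∀ ρ ∈ S, analyticOrderNatAt L ρ ≠ 0 → ρ ∈ F) :
    NZ L S = ∑ ρ ∈ F.filter (fun ρ => ρ ∈ S), analyticOrderNatAt L ρ := by
  unfold NZ
  apply finsum_mem_eq_sum_of_subset
  · rintro ρ ⟨h1, h2⟩
    rw [Finset.mem_coe, Finset.mem_filter]
    exact ⟨hF ρ h1 h2, h1⟩
  · intro ρ hρ
    rw [Finset.mem_coe, Finset.mem_filter] at hρ
    exact hρ.2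

open Classical in
theorem le_NZ {L : ℂ → ℂ} (F A : Finset ℂ) (S : Set ℂ)
    (hF : ∀ ρ ∈ S, analyticOrderNatAt L ρ ≠ 0 → ρ ∈ F) (hA : ∀ ρ ∈ A, ρ ∈ S) :
    ∑ ρ ∈ A, analyticOrderNatAt L ρ ≤ NZ L S := by
  rw [NZ_eq (F ∪ A) S (fun ρ h1 h2 => Finset.mem_union_left _ (hF ρ h1 h2))]
  apply Finset.sum_le_sum_of_subset
  intro ρ hρ
  rw [Finset.mem_filter]
  exact ⟨Finset.mem_union_right _ hρ, hA ρ hρ⟩

open Classical in
/-- the zeros in the critical strip -/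
theorem NZ_strip (hSYM : T_SYM) {L : ℂ → ℂ} {B : ℝ} {W : ℂ} {T c₀ d₀ : ℝ} (hB : 0 < B)
    (hL : FEq L B W) (hc : c₀ < 0) (hd : T < d₀) (F : Finset ℂ)
    (hF : ∀ ρ : ℂ, 0 ≤ ρ.re → ρ.re ≤ 3 → c₀ ≤ ρ.im → ρ.im ≤ d₀ →
      analyticOrderNatAt L ρ ≠ 0 → ρ ∈ F) :
    NZ L {s | 0 < s.re ∧ s.re < 1 ∧ 0 < s.im ∧ s.im < T} ≤
      2 * NZ L {s | 1 / 2 < s.re ∧ s.re < 3 ∧ c₀ < s.im ∧ s.im < d₀} +
      NZ L {s | s.re = 1 / 2 ∧ c₀ < s.im ∧ s.im < d₀} := by
  obtain ⟨S, hS⟩ : ∃ S : Set ℂ, S = {s | 0 < s.re ∧ s.re < 1 ∧ 0 < s.im ∧ s.im < T} := ⟨_, rfl⟩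
  obtain ⟨P, hP⟩ : ∃ P : Finset ℂ, P = F.filter (fun ρ => ρ ∈ S) := ⟨_, rfl⟩
  have hPS : ∀ ρ ∈ P, 0 < ρ.re ∧ ρ.re < 1 ∧ 0 < ρ.im ∧ ρ.im < T := by
    intro ρ hρ
    rw [hP, Finset.mem_filter, hS] at hρ
    exact hρ.2
  have h0 : NZ L S = ∑ ρ ∈ P, analyticOrderNatAt L ρ := by
    rw [hP]
    apply NZ_eq
    intro ρ hρ hne
    rw [hS] at hρ
    obtain ⟨h1, h2, h3, h4⟩ := hρ
    exact hF ρ h1.le (by linarith) (by linarith) (by linarith) hne
  rw [← hS, h0]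
  have h1 : ∑ ρ ∈ P, analyticOrderNatAt L ρ =
      ∑ ρ ∈ P.filter (fun ρ => 1 / 2 < ρ.re), analyticOrderNatAt L ρ +
      (∑ ρ ∈ (P.filter (fun ρ => ¬ 1 / 2 < ρ.re)).filter (fun ρ => ρ.re = 1 / 2),
        analyticOrderNatAt L ρ +
      ∑ ρ ∈ (P.filter (fun ρ => ¬ 1 / 2 < ρ.re)).filter (fun ρ => ¬ ρ.re = 1 / 2),
        analyticOrderNatAt L ρ) := by
    rw [Finset.sum_filter_add_sum_filter_not, Finset.sum_filter_add_sum_filter_not]
  have e1 : ∑ ρ ∈ P.filter (fun ρ => 1 / 2 < ρ.re), analyticOrderNatAt L ρ ≤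
      NZ L {s | 1 / 2 < s.re ∧ s.re < 3 ∧ c₀ < s.im ∧ s.im < d₀} := by
    apply le_NZ F
    · rintro ρ ⟨g1, g2, g3, g4⟩ hne
      exact hF ρ (by linarith) g2.le g3.le g4.le hne
    · intro ρ hρ
      rw [Finset.mem_filter] at hρ
      obtain ⟨g1, g2, g3, g4⟩ := hPS ρ hρ.1
      exact ⟨hρ.2, by linarith, by linarith, by linarith⟩
  have e2 : ∑ ρ ∈ (P.filter (fun ρ => ¬ 1 / 2 < ρ.re)).filter (fun ρ => ρ.re = 1 / 2),
      analyticOrderNatAt L ρ ≤ NZ L {s | s.re = 1 / 2 ∧ c₀ < s.im ∧ s.im < d₀} := by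
    apply le_NZ F
    · rintro ρ ⟨g1, g3, g4⟩ hne
      exact hF ρ (by linarith) (by linarith) g3.le g4.le hne
    · intro ρ hρ
      rw [Finset.mem_filter, Finset.mem_filter] at hρ
      obtain ⟨g1, g2, g3, g4⟩ := hPS ρ hρ.1.1
      exact ⟨hρ.2, by linarith, by linarith⟩
  have e3 : ∑ ρ ∈ (P.filter (fun ρ => ¬ 1 / 2 < ρ.re)).filter (fun ρ => ¬ ρ.re = 1 / 2),
      analyticOrderNatAt L ρ ≤
      NZ L {s | 1 / 2 < s.re ∧ s.re < 3 ∧ c₀ < s.im ∧ s.im < d₀} := by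
    obtain ⟨P', hP'⟩ : ∃ P' : Finset ℂ, P' = (P.filter (fun ρ => ¬ 1 / 2 < ρ.re)).filter
        (fun ρ => ¬ ρ.re = 1 / 2) := ⟨_, rfl⟩
    rw [← hP']
    have hP1 : ∀ ρ ∈ P', 0 < ρ.re ∧ ρ.re < 1 / 2 ∧ 0 < ρ.im ∧ ρ.im < T := by
      intro ρ hρ
      rw [hP', Finset.mem_filter, Finset.mem_filter] at hρ
      obtain ⟨g1, g2, g3, g4⟩ := hPS ρ hρ.1.1
      refine ⟨g1, ?_, g3, g4⟩
      exact lt_of_le_of_ne (not_lt.1 hρ.1.2) hρ.2
    have hinj : Set.InjOn (fun ρ : ℂ => 1 - (starRingEnd ℂ) ρ) (P' : Set ℂ) := by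
      intro a _ b _ hab
      have h2 : (starRingEnd ℂ) a = (starRingEnd ℂ) b := by
        have h3 : 1 - (starRingEnd ℂ) a = 1 - (starRingEnd ℂ) b := hab
        exact sub_right_injective h3
      exact (starRingEnd ℂ).injective h2
    have h2 : ∑ ρ ∈ P', analyticOrderNatAt L ρ =
        ∑ ρ ∈ P'.image (fun ρ : ℂ => 1 - (starRingEnd ℂ) ρ), analyticOrderNatAt L ρ := by
      rw [Finset.sum_image hinj]
      apply Finset.sum_congr rfl
      intro ρ hρ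
      obtain ⟨g1, g2, g3, g4⟩ := hP1 ρ hρ
      exact hSYM L B W hB hL ρ g1 (by linarith)
    rw [h2]
    apply le_NZ F
    · rintro ρ ⟨g1, g2, g3, g4⟩ hne
      exact hF ρ (by linarith) g2.le g3.le g4.le hne
    · intro ρ hρ
      obtain ⟨a, ha, rfl⟩ := Finset.mem_image.1 hρ
      obtain ⟨g1, g2, g3, g4⟩ := hP1 a ha
      refine ⟨?_, ?_, ?_, ?_⟩ <;> simp <;> linarith
  rw [h1]
  omega

/-! ### The theorem -/

theorem ne_zero_of_near {z : ℂ} (h : ‖z - 1‖ ≤ 1 / 2) : z ≠ 0 ∧ 1 / 2 ≤ z.re ∧ 1 / 2 ≤ ‖z‖ := by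
  have h1 : |(z - 1).re| ≤ 1 / 2 := (abs_re_le_norm _).trans h
  rw [sub_re, one_re, abs_le] at h1
  have h2 : 1 / 2 ≤ z.re := by linarith [h1.1]
  have h3 : 1 / 2 ≤ ‖z‖ := h2.trans ((le_abs_self _).trans (abs_re_le_norm _))
  refine ⟨?_, h2, h3⟩
  intro h0
  rw [h0, norm_zero] at h3
  linarith

theorem pf_NB (hHOR : T_HOR) (hVER : T_VER) (hTS : T_TS) (hGEN : T_GEN) (hSYM : T_SYM)
    (hZT : T_ZT) : T_NB := by
  classical
  obtain ⟨C, hC, hHOR⟩ := hHOR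
  have hpi := Real.pi_pos
  refine ⟨2 * C / Real.pi + 1, by positivity, ?_⟩
  intro L B W T M D hB hT hM hD hL hLM hL3 hdig
  have hdL : Differentiable ℂ L := hL.diff
  have hB0 : 0 < B := by linarith
  have hlogM : 0 ≤ Real.log M := Real.log_nonneg hM
  have hlogB : 0 ≤ Real.log B := Real.log_nonneg hB
  -- generic heights
  obtain ⟨hf1, hf2⟩ := hGEN Unit (fun _ => L) Set.univ 0 3 (-1) (T + 1) isOpen_univ
    isPreconnected_univ (Set.subset_univ _) (fun _ => hdL.differentiableOn)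
    (fun _ => ⟨pt 3 0, Set.mem_univ _, (ne_zero_of_near (hL3 0 (by norm_num) (by linarith))).1⟩)
  obtain ⟨c₀, hc₀, hc₀f⟩ := (Set.Ioo_infinite (by norm_num : (-1 : ℝ) < 0)).exists_notMem_finite hf2
  obtain ⟨d₀, hd₀, hd₀f⟩ := (Set.Ioo_infinite (by linarith : T < T + 1)).exists_notMem_finite hf2
  have hseg : ∀ τ : ℝ, -1 ≤ τ → τ ≤ T + 1 → τ ∉ {t : ℝ | ∃ (_ : Unit), ∃ x : ℝ,
      pt x t ∈ Rc 0 3 (-1) (T + 1) ∧ L (pt x t) = 0} →
      ∀ x : ℝ, 1 / 2 ≤ x → x ≤ 3 → L (pt x τ) ≠ 0 := by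
    intro τ h1 h2 h3 x hx1 hx2 h0
    apply h3
    refine ⟨(), x, ⟨?_, ?_, ?_, ?_⟩, h0⟩
    · rw [pt_re]; linarith
    · rw [pt_re]; exact hx2
    · rw [pt_im]; exact h1
    · rw [pt_im]; exact h2
  have hsc := hseg c₀ hc₀.1.le (by linarith [hc₀.2]) hc₀f
  have hsd := hseg d₀ (by linarith [hd₀.1]) hd₀.2.le hd₀f
  have hcd : c₀ < d₀ := by linarith [hc₀.2, hd₀.1]
  have h3 : ∀ t : ℝ, c₀ ≤ t → t ≤ d₀ → ‖L (pt 3 t) - 1‖ ≤ 1 / 2 := fun t h1 h2 =>
    hL3 t (by linarith [hc₀.1]) (by linarith [hd₀.2])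
  obtain ⟨Y, G, hY, hGd, hG0, hLG, hYc, hLSi⟩ := hTS L Set.univ c₀ d₀ hcd isOpen_univ
    isPreconnected_univ (Set.subset_univ _) hdL.differentiableOn
    (fun x h1 h2 => ⟨hsc x h1 h2, hsd x h1 h2⟩)
    (fun t h1 h2 => (ne_zero_of_near (h3 t h1 h2)).1)
  have hGd' : Differentiable ℂ G := differentiableOn_univ.1 hGd
  -- the left side
  have hleft : |LSi G c₀ d₀| ≤ (Real.log B + D) * (T + 2) := by
    have hcont : ContinuousOn (fun t : ℝ => deriv G (pt (1 / 2) t) / G (pt (1 / 2) t))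
        (Set.uIcc c₀ d₀) := by
      rw [Set.uIcc_of_le hcd.le]
      apply ContinuousOn.div
      · exact ((hGd'.deriv).continuous.comp (continuous_pt _)).continuousOn
      · exact (hGd'.continuous.comp (continuous_pt _)).continuousOn
      · intro t ht
        exact hG0 t ht.1 ht.2
    have hint := hcont.intervalIntegrable (μ := MeasureTheory.volume)
    have e1 : LSi G c₀ d₀ = ∫ t in c₀..d₀, (deriv G (pt (1 / 2) t) / G (pt (1 / 2) t)).re := by
      unfold LSi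
      exact (intervalIntegral.intervalIntegral_re hint).symm
    rw [e1]
    have e2 := intervalIntegral.norm_integral_le_of_norm_le_const (a := c₀) (b := d₀)
      (f := fun t : ℝ => (deriv G (pt (1 / 2) t) / G (pt (1 / 2) t)).re)
      (C := Real.log B + D) (by
        intro t ht
        rw [Set.uIoc_of_le hcd.le] at ht
        have h4 := re_logDeriv hZT L G B W Y t hB hL hGd' (fun s => hLG s (Set.mem_univ s))
          (hG0 t ht.1.le ht.2)
        rw [add_re, add_re, ofReal_re] at h4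
        have h5 := hdig t (by linarith [hc₀.1, ht.1]) (by linarith [hd₀.2, ht.2])
        rw [abs_le] at h5
        rw [Real.norm_eq_abs, abs_le]
        constructor <;> linarith [h5.1, h5.2])
    rw [Real.norm_eq_abs] at e2
    refine e2.trans ?_
    apply mul_le_mul_of_nonneg_left _ (by linarith)
    rw [abs_of_pos (by linarith)]
    linarith [hc₀.1, hd₀.2]
  -- the horizontal sides
  have hball : ∀ τ : ℝ, -1 ≤ τ → τ ≤ T + 1 → (∀ x : ℝ, 1 / 2 ≤ x → x ≤ 3 → L (pt x τ) ≠ 0) →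
      |(∫ x in (1 / 2 : ℝ)..3, deriv L (pt x τ) / L (pt x τ)).im| ≤ C * (1 + Real.log M) := by
    intro τ h1 h2 h4
    refine hHOR L τ M hM hdL.differentiableOn ?_
      (ne_zero_of_near (hL3 τ h1 h2)).2.2 h4
    intro s hs
    rw [Metric.mem_ball, dist_eq_norm] at hs
    have g1 : |(s - pt 3 τ).re| < 14 / 5 := (abs_re_le_norm _).trans_lt hs
    have g2 : |(s - pt 3 τ).im| < 14 / 5 := (abs_im_le_norm _).trans_lt hs
    rw [sub_re, pt_re, abs_lt] at g1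
    rw [sub_im, pt_im, abs_lt] at g2
    apply hLM s
    refine ⟨?_, ?_, ?_, ?_⟩
    · linarith [g1.1]
    · linarith [g1.2]
    · linarith [g2.1]
    · linarith [g2.2]
  have hc1 := hball c₀ hc₀.1.le (by linarith [hc₀.2]) hsc
  have hd1 := hball d₀ (by linarith [hd₀.1]) hd₀.2.le hsd
  -- the right side
  have hright : |(∫ t in c₀..d₀, deriv L (pt 3 t) / L (pt 3 t)).re| ≤ Real.pi := by
    have h4 := hVER (fun t => L (pt 3 t)) (fun t => deriv L (pt 3 t) * I) c₀ d₀ hcd.le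
      (fun t _ => (hdL _).hasDerivAt.comp t (hasDerivAt_pt _ t))
      (((hdL.deriv).continuous.comp (continuous_pt _)).mul continuous_const).continuousOn
      (fun t ht => by
        have := (ne_zero_of_near (h3 t ht.1 ht.2)).2.1
        linarith)
    have h5 : (∫ t in c₀..d₀, deriv L (pt 3 t) * I / L (pt 3 t)) =
        (∫ t in c₀..d₀, deriv L (pt 3 t) / L (pt 3 t)) * I := by
      rw [← intervalIntegral.integral_mul_const]
      apply intervalIntegral.integral_congr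
      intro t _
      simp only
      ring
    rw [h5, mul_I_im] at h4
    exact h4
  have hTSi : |TSi L c₀ d₀| ≤ 2 * (C * (1 + Real.log M)) + Real.pi := by
    unfold TSi
    rw [abs_le] at hc1 hd1 hright ⊢
    constructor <;> linarith [hc1.1, hc1.2, hd1.1, hd1.2, hright.1, hright.2]
  -- the zeros
  have hfin : {ρ : ℂ | 0 ≤ ρ.re ∧ ρ.re ≤ 3 ∧ c₀ ≤ ρ.im ∧ ρ.im ≤ d₀ ∧ L ρ = 0}.Finite := by
    apply ((hf1.prod hf2).image (fun p : ℝ × ℝ => pt p.1 p.2)).subset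
    rintro ρ ⟨g1, g2, g3, g4, g5⟩
    have hmem : pt ρ.re ρ.im ∈ Rc 0 3 (-1) (T + 1) := by
      rw [pt_eta]
      exact ⟨g1, g2, by linarith [hc₀.1], by linarith [hd₀.2]⟩
    refine ⟨(ρ.re, ρ.im), ⟨⟨(), ρ.im, hmem, by rw [pt_eta]; exact g5⟩,
      ⟨(), ρ.re, hmem, by rw [pt_eta]; exact g5⟩⟩, pt_eta ρ⟩
  have hNZ := NZ_strip hSYM hB0 hL hc₀.2 hd₀.1 hfin.toFinset (by
    intro ρ g1 g2 g3 g4 hne
    rw [Set.Finite.mem_toFinset]
    exact ⟨g1, g2, g3, g4, zero_of_order hdL hne⟩)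
  rw [← hYc] at hNZ
  obtain ⟨N, hN⟩ : ∃ N : ℕ, N = NZ L {s | 1 / 2 < s.re ∧ s.re < 3 ∧ c₀ < s.im ∧ s.im < d₀} :=
    ⟨_, rfl⟩
  rw [← hN] at hNZ hLSi
  have hNZ' : (NZ L {s | 0 < s.re ∧ s.re < 1 ∧ 0 < s.im ∧ s.im < T} : ℝ) ≤
      2 * N + Multiset.card Y := by exact_mod_cast hNZ
  rw [abs_le] at hleft hTSi
  have hmain : Real.pi * (2 * N + Multiset.card Y) ≤
      (2 * (C * (1 + Real.log M)) + Real.pi) + (Real.log B + D) * (T + 2) := by
    have : Real.pi * (2 * N + Multiset.card Y) = TSi L c₀ d₀ - LSi G c₀ d₀ := by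
      rw [hLSi]
      ring
    rw [this]
    linarith [hleft.1, hTSi.2]
  have hmain2 : (2 * N + Multiset.card Y : ℝ) ≤
      ((2 * (C * (1 + Real.log M)) + Real.pi) + (Real.log B + D) * (T + 2)) / Real.pi := by
    rw [le_div_iff₀ hpi, mul_comm]
    exact hmain
  refine hNZ'.trans (hmain2.trans ?_)
  have e : ((2 * (C * (1 + Real.log M)) + Real.pi) + (Real.log B + D) * (T + 2)) / Real.pi =
      (T + 2) * (Real.log B + D) / Real.pi + 2 * C / Real.pi * (1 + Real.log M) + 1 := by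
    field_simp
    ring
  rw [e]
  nlinarith

end Pool.Agent.H59.LEV
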